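import Pool.Agent.Helper87.PG.Stmts

/-! # Row LSM of PG (MP_39dd1a_ag): a finite set of points is nonsingular -/

set_option autoImplicit false

namespace Pool.Agent.Helper87.PG

open MvPolynomial Pool.Agent.Helper48.VMRT Pool.Agent.Helper87.VM Pool.Agent.Helper87.TC

namespace S63

/-- a linear form which vanishes on `z`, not at `y` -/
theorem form {n : ℕ} (y z : Fin n → ℂ) (hz : z ≠ 0) (h : ∀ a : ℂ, y ≠ a • z) :
    ∃ f : MvPolynomial (Fin n) ℂ, (∀ a : ℂ, eval (a • z) f = 0) ∧
      ∀ a : ℂ, a ≠ 0 → eval (a • y) f ≠ 0 := by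
  obtain ⟨e, he⟩ : ∃ e, z e ≠ 0 := by
    by_contra hc
    push Not at hc
    exact hz (funext hc)
  obtain ⟨j, hj⟩ : ∃ j, z e * y j - z j * y e ≠ 0 := by
    by_contra hc
    push Not at hc
    refine h (y e / z e) (funext fun j => ?_)
    have := hc j
    rw [Pi.smul_apply, smul_eq_mul]
    field_simp
    linear_combination this
  refine ⟨C (z e) * X j - C (z j) * X e, fun a => ?_, fun a ha => ?_⟩
  · simp only [map_sub, map_mul, eval_C, eval_X, Pi.smul_apply, smul_eq_mul]
    ring
  · simp only [map_sub, map_mul, eval_C, eval_X, Pi.smul_apply, smul_eq_mul]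
    rw [show z e * (a * y j) - z j * (a * y e) = a * (z e * y j - z j * y e) by ring]
    exact mul_ne_zero ha hj

/-- the ideal of a line -/
theorem line_ideal {m : ℕ} (z : Fin (m + 1) → ℂ) (e : Fin (m + 1)) (he : z e ≠ 0)
    (p : MvPolynomial (Fin (m + 1)) ℂ) (hp : ∀ a : ℂ, eval (a • z) p = 0) :
    p ∈ Ideal.span (Set.range fun k : Fin m =>
      (C (z e) * X (e.succAbove k) - C (z (e.succAbove k)) * X e :
        MvPolynomial (Fin (m + 1)) ℂ)) := by
  set L := Ideal.span (Set.range fun k : Fin m =>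
      (C (z e) * X (e.succAbove k) - C (z (e.succAbove k)) * X e :
        MvPolynomial (Fin (m + 1)) ℂ)) with hL
  set φ : Fin (m + 1) → MvPolynomial (Fin (m + 1)) ℂ := fun j => C (z j / z e) * X e with hφ
  have h0 : aeval φ p = 0 := by
    apply MvPolynomial.funext
    intro y
    rw [map_zero]
    have h1 : eval y (aeval φ p) = eval (fun j => eval y (φ j)) p := by
      rw [← MvPolynomial.coe_aeval_eq_eval, ← MvPolynomial.coe_aeval_eq_eval]
      change ((aeval y).comp (aeval φ)) p = _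
      rw [MvPolynomial.comp_aeval]
      rfl
    rw [h1, show (fun j => eval y (φ j)) = (y e / z e) • z from ?_]
    · exact hp _
    · funext j
      simp only [hφ, map_mul, eval_C, eval_X, Pi.smul_apply, smul_eq_mul]
      ring
  have hX : ∀ j, X j - φ j ∈ L := by
    intro j
    rcases Fin.eq_self_or_eq_succAbove e j with rfl | ⟨k, rfl⟩
    · rw [hφ]
      simp only
      rw [div_self he, C_1, one_mul, sub_self]
      exact L.zero_mem
    · have h1 : C (z e) * X (e.succAbove k) - C (z (e.succAbove k)) * X e ∈ L :=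
        Ideal.subset_span ⟨k, rfl⟩
      have h2 := L.mul_mem_left (C (z e)⁻¹) h1
      have h3 : C (z e)⁻¹ * (C (z e) * X (e.succAbove k) - C (z (e.succAbove k)) * X e) =
          (X (e.succAbove k) - φ (e.succAbove k) : MvPolynomial (Fin (m + 1)) ℂ) := by
        rw [hφ]
        simp only
        rw [mul_sub, ← mul_assoc, ← mul_assoc, ← C_mul, ← C_mul, inv_mul_cancel₀ he, C_1,
          one_mul, div_eq_inv_mul]
      rwa [h3] at h2
  have key : (Ideal.Quotient.mkₐ ℂ L) = (Ideal.Quotient.mkₐ ℂ L).comp (aeval φ) := by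
    apply MvPolynomial.algHom_ext
    intro j
    rw [AlgHom.comp_apply, aeval_X]
    exact (Ideal.Quotient.eq).2 (hX j)
  have h5 : (Ideal.Quotient.mkₐ ℂ L) p = 0 := by
    rw [key, AlgHom.comp_apply, h0, map_zero]
  exact Ideal.Quotient.eq_zero_iff_mem.1 h5

theorem mul_span {σ : Type} {c : ℕ} (g : MvPolynomial σ ℂ) (l : Fin c → MvPolynomial σ ℂ)
    (p : MvPolynomial σ ℂ) (hp : p ∈ Ideal.span (Set.range l)) :
    g * p ∈ Ideal.span (Set.range fun k => g * l k) := by
  refine Submodule.span_induction (p := fun p _ => g * p ∈ Ideal.span (Set.range fun k => g * l k))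
    ?_ ?_ ?_ ?_ hp
  · rintro _ ⟨k, rfl⟩
    exact Ideal.subset_span ⟨k, rfl⟩
  · rw [mul_zero]
    exact Ideal.zero_mem _
  · intro x y _ _ hx hy
    rw [mul_add]
    exact Ideal.add_mem _ hx hy
  · intro a x _ hx
    rw [smul_eq_mul, mul_left_comm]
    exact Ideal.mul_mem_left _ _ hx

end S63

open S63 in
theorem st_LSM : ST_LSM := by
  classical
  intro n ι _ z hz x hx hx0
  have := Fintype.ofFinite ι
  obtain ⟨i, hi⟩ := Set.mem_iUnion.1 hx
  obtain ⟨a, rfl⟩ := hi
  have ha : a ≠ 0 := by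
    rintro rfl
    exact hx0 (zero_smul _ _)
  obtain ⟨e, he⟩ : ∃ e, z i e ≠ 0 := by
    by_contra hc
    push Not at hc
    exact hz.ne i (funext hc)
  obtain ⟨m, rfl⟩ : ∃ m, n = m + 1 := ⟨n - 1, by have := e.pos; omega⟩
  have hf : ∀ i' : ι, ∃ f : MvPolynomial (Fin (m + 1)) ℂ, i' ≠ i →
      (∀ b : ℂ, eval (b • z i') f = 0) ∧ ∀ b : ℂ, b ≠ 0 → eval (b • z i) f ≠ 0 := by
    intro i'
    by_cases h : i' = i
    · exact ⟨0, fun h' => absurd h h'⟩
    · obtain ⟨f, h1, h2⟩ := form (z i) (z i') (hz.ne i') (hz.dist i i' (Ne.symm h))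
      exact ⟨f, fun _ => ⟨h1, h2⟩⟩
  choose f hf using hf
  set g : MvPolynomial (Fin (m + 1)) ℂ := ∏ i' ∈ Finset.univ.erase i, f i' with hg
  have hg1 : eval (a • z i) g ≠ 0 := by
    rw [hg, map_prod]
    refine Finset.prod_ne_zero_iff.2 fun i' hi' => ?_
    exact (hf i' (Finset.ne_of_mem_erase hi')).2 a ha
  have hg2 : ∀ i', i' ≠ i → ∀ b : ℂ, eval (b • z i') g = 0 := by
    intro i' hi' b
    rw [hg, map_prod]
    exact Finset.prod_eq_zero (Finset.mem_erase.2 ⟨hi', Finset.mem_univ _⟩) ((hf i' hi').1 b)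
  set l : Fin m → MvPolynomial (Fin (m + 1)) ℂ := fun k =>
    C (z i e) * X (e.succAbove k) - C (z i (e.succAbove k)) * X e with hl
  have hl0 : ∀ k (b : ℂ), eval (b • z i) (l k) = 0 := by
    intro k b
    simp only [hl, map_sub, map_mul, eval_C, eval_X, Pi.smul_apply, smul_eq_mul]
    ring
  have hae : ∀ (y : Fin (m + 1) → ℂ) (q : MvPolynomial (Fin (m + 1)) ℂ), aeval y q = eval y q := by
    intro y q
    rw [← MvPolynomial.coe_aeval_eq_eval]
    rfl
  refine ⟨m, fun k => g * l k, fun k => ?_, ?_, g, hg1, fun p hp => ?_⟩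
  · rw [mem_vanishingIdeal_iff]
    intro y hy
    obtain ⟨i', hi'⟩ := Set.mem_iUnion.1 hy
    obtain ⟨b, rfl⟩ := hi'
    rw [hae]
    simp only
    rw [map_mul]
    by_cases h : i' = i
    · subst h
      rw [hl0, mul_zero]
    · rw [hg2 i' h b, zero_mul]
  · rw [Fintype.linearIndependent_iff]
    intro c hc k
    have h1 := congrFun hc (e.succAbove k)
    simp only [Finset.sum_apply, Pi.smul_apply, smul_eq_mul, Pi.zero_apply] at h1
    have h2 : ∀ k', eval (a • z i) (pderiv (e.succAbove k) (g * l k')) =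
        if k' = k then eval (a • z i) g * z i e else 0 := by
      intro k'
      rw [pderiv_mul, map_add, map_mul, map_mul, hl0, mul_zero, zero_add]
      have h3 : pderiv (e.succAbove k) (l k') = if k' = k then C (z i e) else 0 := by
        simp only [hl, map_sub, pderiv_C_mul]
        rw [pderiv_X_of_ne (Fin.ne_succAbove e k), mul_zero, sub_zero]
        by_cases h : k' = k
        · rw [h, pderiv_X_self, if_pos rfl, mul_one]
        · rw [pderiv_X_of_ne (fun h' => h (Fin.succAbove_right_injective h')), if_neg h, mul_zero]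
      rw [h3]
      split_ifs <;> simp
    rw [Finset.sum_eq_single k] at h1
    · rw [h2, if_pos rfl] at h1
      rcases mul_eq_zero.1 h1 with h | h
      · exact h
      · exact absurd h (mul_ne_zero hg1 he)
    · intro k' _ hk'
      rw [h2, if_neg hk', mul_zero]
    · intro h
      exact absurd (Finset.mem_univ _) h
  · apply mul_span
    apply line_ideal _ _ he
    intro b
    have h1 := mem_vanishingIdeal_iff.1 hp (b • z i) (Set.mem_iUnion.2 ⟨i, b, rfl⟩)
    rwa [hae] at h1

end Pool.Agent.Helper87.PG
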